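import Mathlib

/-!
Basic objects for the growth theorem on derivations of C*-algebras with the Dixmier property.
-/

open scoped ComplexOrder InnerProductSpace

noncomputable section

namespace H759R2.Kad

universe u v w

/-- The Hilbert space direct sum of `ι` copies of `H`. -/
abbrev HH (ι : Type w) (H : Type v) [Fintype ι] [NormedAddCommGroup H] : Type (max w v) :=
  PiLp 2 (fun _ : ι => H)

section amp

variable {A : Type u} [AddCommMonoid A] [Module ℂ A]
variable {H : Type v} [NormedAddCommGroup H] [InnerProductSpace ℂ H]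
variable {ι : Type w} [Fintype ι]

/-- The operator matrix `(T i j)` acting on the Hilbert space sum. -/
def opMat (T : ι → ι → (H →L[ℂ] H)) : HH ι H →L[ℂ] HH ι H :=
  (PiLp.continuousLinearEquiv 2 ℂ (fun _ : ι => H)).symm.toContinuousLinearMap ∘L
    (ContinuousLinearMap.pi fun i => ∑ j, (T i j) ∘L (ContinuousLinearMap.proj j)) ∘L
      (PiLp.continuousLinearEquiv 2 ℂ (fun _ : ι => H)).toContinuousLinearMap

theorem opMat_apply (T : ι → ι → (H →L[ℂ] H)) (v : HH ι H) (i : ι) :
    opMat T v i = ∑ j, T i j (v j) := by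
  simp [opMat]

/-- The amplification of `T : A → B(H)` to matrices over `A`, acting entrywise. -/
def amp (T : A →ₗ[ℂ] (H →L[ℂ] H)) (ι : Type w) [Fintype ι] :
    CStarMatrix ι ι A →ₗ[ℂ] (HH ι H →L[ℂ] HH ι H) where
  toFun X := opMat fun i j => T (X i j)
  map_add' X Y := by
    ext v i
    simp [opMat_apply, Finset.sum_add_distrib]
  map_smul' c X := by
    ext v i
    simp [opMat_apply, Finset.smul_sum]

theorem amp_apply (T : A →ₗ[ℂ] (H →L[ℂ] H)) (X : CStarMatrix ι ι A) (v : HH ι H) (i : ι) :
    amp T ι X v i = ∑ j, T (X i j) (v j) := opMat_apply _ _ _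

end amp

set_option linter.unusedSectionVars false
set_option linter.unusedSimpArgs false

section inj

variable {ι : Type w} [Fintype ι] [DecidableEq ι]
variable {H : Type v} [NormedAddCommGroup H] [InnerProductSpace ℂ H]

/-- The vector of the Hilbert space sum with `u` in place `c` and zero elsewhere. -/
def inj (c : ι) : H →ₗ[ℂ] HH ι H where
  toFun u := WithLp.toLp 2 (Pi.single c u)
  map_add' u v := by
    ext i
    by_cases h : i = c
    · subst h
      simp
    · simp [h]
  map_smul' r u := by
    ext i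
    by_cases h : i = c
    · subst h
      simp
    · simp [h]

theorem inj_apply (c : ι) (u : H) (i : ι) : inj c u i = if i = c then u else 0 := by
  simp [inj, Pi.single_apply]

/-- The projection onto the coordinate `c`. -/
def cproj (c : ι) : HH ι H →ₗ[ℂ] HH ι H where
  toFun v := inj c (v c)
  map_add' u v := by simp
  map_smul' r u := by simp

theorem cproj_apply (c : ι) (v : HH ι H) (i : ι) : cproj c v i = if i = c then v c else 0 := by
  simp [cproj, inj_apply]

theorem sum_inj (v : HH ι H) : ∑ c, inj c (v c) = v := by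
  ext i
  simp [inj_apply]

end inj

section ampHom

variable {A : Type u} [CStarAlgebra A] [PartialOrder A] [StarOrderedRing A]
variable {H : Type v} [NormedAddCommGroup H] [InnerProductSpace ℂ H] [CompleteSpace H]
variable {ι : Type w} [Fintype ι] [DecidableEq ι]

omit [PartialOrder A] [StarOrderedRing A] [CompleteSpace H] [DecidableEq ι] in
/-- Product rule for amplifications. -/
theorem amp_mul_of (S T R : A →ₗ[ℂ] (H →L[ℂ] H)) (X Y : CStarMatrix ι ι A)
    (h : ∀ a b, R (a * b) = S a * T b) : amp R ι (X * Y) = amp S ι X * amp T ι Y := by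
  ext v i
  simp only [mul_apply_eq_comp, amp_apply, CStarMatrix.mul_apply, map_sum, h,
    sum_apply]
  rw [Finset.sum_comm]

omit [DecidableEq ι] in
theorem opMat_star (T : ι → ι → (H →L[ℂ] H)) :
    star (opMat T) = opMat fun i j => star (T j i) := by
  rw [ContinuousLinearMap.star_eq_adjoint]
  symm
  rw [ContinuousLinearMap.eq_adjoint_iff]
  intro v w
  simp only [PiLp.inner_apply, opMat_apply, sum_inner, inner_sum]
  rw [Finset.sum_comm]
  refine Finset.sum_congr rfl fun i _ => Finset.sum_congr rfl fun j _ => ?_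
  rw [ContinuousLinearMap.star_eq_adjoint, ContinuousLinearMap.adjoint_inner_left]

/-- The amplification of a unital *-homomorphism, as a *-homomorphism. -/
def ampHom (π : A →⋆ₐ[ℂ] (H →L[ℂ] H)) (ι : Type w) [Fintype ι] [DecidableEq ι] :
    CStarMatrix ι ι A →⋆ₐ[ℂ] (HH ι H →L[ℂ] HH ι H) where
  toFun X := amp π.toLinearMap ι X
  map_one' := by
    ext v i
    rw [amp_apply, Finset.sum_eq_single i]
    · simp [CStarMatrix.one_apply]
    · intro j _ hj
      simp [CStarMatrix.one_apply, Ne.symm hj]
    · simp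
  map_mul' X Y := amp_mul_of _ _ _ _ _ fun a b => map_mul π a b
  map_zero' := map_zero _
  map_add' X Y := map_add _ _ _
  commutes' c := by
    ext v i
    rw [amp_apply, Finset.sum_eq_single i]
    · simp [CStarMatrix.algebraMap_apply, Algebra.algebraMap_eq_smul_one]
    · intro j _ hj
      simp [CStarMatrix.algebraMap_apply, Ne.symm hj]
    · simp
  map_star' X := by
    rw [amp, LinearMap.coe_mk, AddHom.coe_mk, opMat_star]
    congr 1
    funext i j
    rw [CStarMatrix.star_apply]
    exact map_star π _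

@[simp]
theorem ampHom_apply (π : A →⋆ₐ[ℂ] (H →L[ℂ] H)) (X : CStarMatrix ι ι A) :
    ampHom π ι X = amp π.toLinearMap ι X := rfl

end ampHom

/-- `D` is a symmetric derivation relative to the *-homomorphism `π`: the Leibniz rule holds and
`D (a*) = - (D a)*`. -/
structure IsDer {A : Type u} [CStarAlgebra A] {H : Type v} [NormedAddCommGroup H]
    [InnerProductSpace ℂ H] [CompleteSpace H] (π : A →⋆ₐ[ℂ] (H →L[ℂ] H))
    (D : A →ₗ[ℂ] (H →L[ℂ] H)) : Prop where
  leib : ∀ a b, D (a * b) = π a * D b + D a * π b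
  anti : ∀ a, D (star a) = - star (D a)

/-- A tracial state on a unital C*-algebra. -/
structure IsTracialState {A : Type u} [CStarAlgebra A] (τ : A →ₗ[ℂ] ℂ) : Prop where
  one : τ 1 = 1
  pos : ∀ a, 0 ≤ τ (star a * a)
  comm : ∀ a b, τ (a * b) = τ (b * a)

/-- The Dixmier property relative to `τ`: for self-adjoint `a`, the scalar `τ a` is a norm limit of
averages of unitary conjugates of `a`. -/
def HasDixmier {A : Type u} [CStarAlgebra A] (τ : A →ₗ[ℂ] ℂ) : Prop :=
  ∀ a : A, IsSelfAdjoint a → ∀ ε : ℝ, 0 < ε → ∃ (N : ℕ) (g : Fin (N + 1) → unitary A),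
    ‖((N + 1 : ℂ))⁻¹ • ∑ k, (g k : A) * a * star (g k : A) - algebraMap ℂ A (τ a)‖ ≤ ε

/-- Unnormalised trace on matrices: the sum of the values of `τ` on the diagonal entries. -/
def tr {A : Type u} [CStarAlgebra A] (τ : A →ₗ[ℂ] ℂ) (ι : Type w) [Fintype ι] :
    CStarMatrix ι ι A →ₗ[ℂ] ℂ where
  toFun X := ∑ i, τ (X i i)
  map_add' X Y := by simp [Finset.sum_add_distrib]
  map_smul' c X := by simp [Finset.mul_sum]

theorem tr_apply {A : Type u} [CStarAlgebra A] (τ : A →ₗ[ℂ] ℂ) {ι : Type w} [Fintype ι]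
    (X : CStarMatrix ι ι A) : tr τ ι X = ∑ i, τ (X i i) := rfl

section ampDer

variable {A : Type u} [CStarAlgebra A] [PartialOrder A] [StarOrderedRing A]
variable {H : Type v} [NormedAddCommGroup H] [InnerProductSpace ℂ H] [CompleteSpace H]
variable {ι : Type w} [Fintype ι] [DecidableEq ι]
variable {π : A →⋆ₐ[ℂ] (H →L[ℂ] H)} {D : A →ₗ[ℂ] (H →L[ℂ] H)}

/-- The amplification of a symmetric derivation is a symmetric derivation. -/
theorem IsDer.amp (hD : IsDer π D) (ι : Type w) [Fintype ι] [DecidableEq ι] :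
    IsDer (ampHom π ι) (Kad.amp D ι) where
  leib X Y := by
    ext v i
    simp only [ampHom_apply, add_apply, mul_apply_eq_comp, amp_apply, CStarMatrix.mul_apply,
      map_sum, hD.leib, sum_apply, PiLp.add_apply]
    rw [Finset.sum_comm]
    simp only [Finset.sum_add_distrib, sum_apply, add_apply, mul_apply_eq_comp]
    rfl
  anti X := by
    rw [Kad.amp, LinearMap.coe_mk, AddHom.coe_mk, opMat_star]
    ext v i
    simp [opMat_apply, CStarMatrix.star_apply, hD.anti]

omit [PartialOrder A] [StarOrderedRing A] in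
theorem IsDer.one (hD : IsDer π D) : D 1 = 0 := by
  have h := hD.leib 1 1
  simpa using h

end ampDer


/-- Normalised trace on matrices: `τ` applied to the average of the diagonal entries. -/
def ntr {A : Type u} [CStarAlgebra A] (τ : A →ₗ[ℂ] ℂ) (ι : Type w) [Fintype ι] :
    CStarMatrix ι ι A →ₗ[ℂ] ℂ :=
  (Fintype.card ι : ℂ)⁻¹ • tr τ ι

/-- The elementary tensor `s ⊗ h` of a scalar matrix `s` and an element `h` of `A`. -/
def tens {A : Type u} [CStarAlgebra A] {ι : Type w} (s : Matrix ι ι ℂ) (h : A) :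
    CStarMatrix ι ι A :=
  CStarMatrix.ofMatrix fun i j => s i j • h

section phases

variable {ι : Type w} [Fintype ι] [DecidableEq ι] {R : ℕ} [NeZero R]

/-- The phase attached to the coordinate `c`. -/
def chi (ω : ι → ZMod R) (c : ι) : ℂ := ZMod.stdAddChar (ω c)

/-- The character of `(ZMod R)^ι` with frequency `f`. -/
def Chi (f ω : ι → ZMod R) : ℂ := ZMod.stdAddChar (∑ c, f c * ω c)

/-- Recursively defined polynomials in the phases. -/
def wv {W : Type*} [AddCommGroup W] [Module ℂ W] (P : ι → W →ₗ[ℂ] W) (V : W →ₗ[ℂ] W) (θ : W)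
    (ω : ι → ZMod R) : ℕ → W
  | 0 => ∑ c, chi ω c • P c θ
  | k + 1 => ∑ c, chi ω c • P c (V (wv P V θ ω k))

/-- The diagonal matrix of phases. -/
def ph (A : Type u) [CStarAlgebra A] (ω : ι → ZMod R) : CStarMatrix ι ι A :=
  CStarMatrix.ofMatrix (Matrix.diagonal fun c => chi ω c • (1 : A))

end phases

end H759R2.Kad
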