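import Mathlib
import Pool.Agent.H75.L8.H759R2.Kad.Defs
import Pool.Agent.H75.L8.H759R2.Kad.Props

/-!
Statements of the pieces of the growth theorem for homomorphisms of norm close to one.
All index types live in `Type`.
-/

open scoped ComplexOrder InnerProductSpace ComplexConjugate
open Finset

noncomputable section

namespace H759R2.Kad

universe u v

/-- A unital multiplicative linear map. -/
structure IsHom {B : Type u} [CStarAlgebra B] {K : Type v} [NormedAddCommGroup K]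
    [InnerProductSpace ℂ K] (w : B →ₗ[ℂ] (K →L[ℂ] K)) : Prop where
  mul : ∀ a b, w (a * b) = w a * w b
  one : w 1 = 1

/-- The map `b ↦ w(b*)* - w(b)`, which vanishes iff `w` preserves adjoints. -/
def dmap {B : Type u} [CStarAlgebra B] {K : Type v} [NormedAddCommGroup K]
    [InnerProductSpace ℂ K] [CompleteSpace K] (w : B →ₗ[ℂ] (K →L[ℂ] K)) :
    B →ₗ[ℂ] (K →L[ℂ] K) where
  toFun b := star (w (star b)) - w b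
  map_add' a b := by
    simp only [star_add, map_add]
    abel
  map_smul' c b := by
    simp only [star_smul, map_smul, star_star, RingHom.id_apply, RCLike.star_def,
      RCLike.conj_conj, smul_sub]

/-- The Dixmier property with unitaries `g` such that `w g` and `w g*` have norm at most `c`. -/
def HasDixFor {B : Type u} [CStarAlgebra B] {K : Type v} [NormedAddCommGroup K]
    [InnerProductSpace ℂ K] (τ : B →ₗ[ℂ] ℂ) (w : B →ₗ[ℂ] (K →L[ℂ] K)) (c : ℝ) : Prop :=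
  ∀ a : B, IsSelfAdjoint a → ∀ ε : ℝ, 0 < ε → ∃ (N : ℕ) (g : Fin (N + 1) → unitary B),
    (∀ k, ‖w (g k : B)‖ ≤ c ∧ ‖w (star (g k : B))‖ ≤ c) ∧
    ‖((N + 1 : ℂ))⁻¹ • ∑ k, (g k : B) * a * star (g k : B) - algebraMap ℂ B (τ a)‖ ≤ ε

/-- The defect of a homomorphism of norm close to one. -/
def T2_defect : Prop :=
  ∀ (B : Type u) [CStarAlgebra B] [PartialOrder B] [StarOrderedRing B]
    (K : Type v) [NormedAddCommGroup K] [InnerProductSpace ℂ K] [CompleteSpace K]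
    (w : B →ₗ[ℂ] (K →L[ℂ] K)), IsHom w → ∀ δ : ℝ, 0 ≤ δ → δ ≤ 1 / 10 →
    (∀ b, ‖w b‖ ≤ (1 + δ) * ‖b‖) → ∀ b, ‖dmap w b‖ ≤ 6 * δ * ‖b‖

/-- Column and row bounds for a homomorphism. -/
def T2_col : Prop :=
  ∀ (B : Type u) [CStarAlgebra B] [PartialOrder B] [StarOrderedRing B]
    (K : Type v) [NormedAddCommGroup K] [InnerProductSpace ℂ K] [CompleteSpace K]
    (w : B →ₗ[ℂ] (K →L[ℂ] K)) (τ : B →ₗ[ℂ] ℂ), IsHom w → IsTracialState τ →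
    ∀ c γ : ℝ, 0 ≤ c → 0 ≤ γ → HasDixFor τ w c → (∀ b, ‖w b‖ ≤ γ * ‖b‖) →
    ∀ (κ : Type) [Fintype κ] (a : κ → B),
      (∀ ζ : K, ∑ k, ‖w (a k) ζ‖ ^ 2 ≤
        6 * c ^ 2 * γ ^ 2 * ‖∑ k, star (a k) * a k‖ * ‖ζ‖ ^ 2) ∧
      (∀ ξ : κ → K, ‖∑ k, w (a k) (ξ k)‖ ^ 2 ≤
        6 * c ^ 2 * γ ^ 2 * ‖∑ k, a k * star (a k)‖ * ∑ k, ‖ξ k‖ ^ 2)

/-- Column and row bounds for the defect. -/
def T2_ecol : Prop :=
  ∀ (B : Type u) [CStarAlgebra B] [PartialOrder B] [StarOrderedRing B]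
    (K : Type v) [NormedAddCommGroup K] [InnerProductSpace ℂ K] [CompleteSpace K]
    (w : B →ₗ[ℂ] (K →L[ℂ] K)) (τ : B →ₗ[ℂ] ℂ), IsHom w → IsTracialState τ → HasDixmier τ →
    ∀ c ε : ℝ, 0 ≤ c → c ≤ 11 / 10 → 0 ≤ ε → (∀ b, ‖w b‖ ≤ c * ‖b‖) →
    (∀ b, ‖dmap w b‖ ≤ ε * ‖b‖) → ∀ (κ : Type) [Fintype κ] (a : κ → B),
      (∀ ζ : K, ∑ k, ‖dmap w (a k) ζ‖ ^ 2 ≤ 36 * ε ^ 2 * ‖∑ k, star (a k) * a k‖ * ‖ζ‖ ^ 2) ∧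
      (∀ ξ : κ → K, ‖∑ k, dmap w (a k) (ξ k)‖ ^ 2 ≤
        36 * ε ^ 2 * ‖∑ k, a k * star (a k)‖ * ∑ k, ‖ξ k‖ ^ 2)

/-- Entries of `w(x)* w(x) - 1` for a unitary matrix `x`. -/
def T2_entry : Prop :=
  ∀ (A : Type u) [CStarAlgebra A] [PartialOrder A] [StarOrderedRing A]
    (H : Type v) [NormedAddCommGroup H] [InnerProductSpace ℂ H] [CompleteSpace H]
    (w : A →ₗ[ℂ] (H →L[ℂ] H)) (τ : A →ₗ[ℂ] ℂ), IsHom w → IsTracialState τ → HasDixmier τ →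
    ∀ c ε : ℝ, 0 ≤ c → c ≤ 11 / 10 → 0 ≤ ε → (∀ b, ‖w b‖ ≤ c * ‖b‖) →
    (∀ b, ‖dmap w b‖ ≤ ε * ‖b‖) → ∀ (ι : Type) [Fintype ι] [DecidableEq ι]
      (x : CStarMatrix ι ι A), x ∈ unitary (CStarMatrix ι ι A) → ∀ (i j : ι) (h : H),
      ‖(star (amp w ι x) * amp w ι x - 1) (inj j h) i‖ ≤ 18 * ε * ‖h‖

/-- Matrices over `A` inherit everything. -/
def T2_dix : Prop :=
  ∀ (A : Type u) [CStarAlgebra A] [PartialOrder A] [StarOrderedRing A]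
    (H : Type v) [NormedAddCommGroup H] [InnerProductSpace ℂ H] [CompleteSpace H]
    (w : A →ₗ[ℂ] (H →L[ℂ] H)) (τ : A →ₗ[ℂ] ℂ), IsHom w → IsTracialState τ → HasDixmier τ →
    ∀ c : ℝ, 0 ≤ c → (∀ b, ‖w b‖ ≤ c * ‖b‖) →
    ∀ (ι : Type) [Fintype ι] [DecidableEq ι] [Nonempty ι],
      IsHom (amp w ι) ∧ IsTracialState (ntr τ ι) ∧ HasDixFor (ntr τ ι) (amp w ι) c

/-- The block bound for homomorphisms. -/
def T2_block : Prop :=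
  ∀ (A : Type u) [CStarAlgebra A] [PartialOrder A] [StarOrderedRing A]
    (H : Type v) [NormedAddCommGroup H] [InnerProductSpace ℂ H] [CompleteSpace H]
    (w : A →ₗ[ℂ] (H →L[ℂ] H)) (τ : A →ₗ[ℂ] ℂ), IsHom w → IsTracialState τ → HasDixmier τ →
    ∀ c : ℝ, 0 ≤ c → c ≤ 11 / 10 → (∀ b, ‖w b‖ ≤ c * ‖b‖) →
    ∀ (α β : Type) [Fintype α] [DecidableEq α] [Nonempty α] [Fintype β] [DecidableEq β]
      [Nonempty β] (γ : ℝ), 0 ≤ γ → (∀ Y : CStarMatrix β β A, ‖amp w β Y‖ ≤ γ * ‖Y‖) →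
      ∀ (X : CStarMatrix (α × β) (α × β) A) (ξ : HH (α × β) H),
        ‖amp w (α × β) X ξ‖ ^ 2 ≤ 27 * γ ^ 2 * ‖ξ‖ ^ 2 *
          (‖X‖ ^ 2 + 1 / (Fintype.card β : ℝ) * (tr τ (α × β) (star X * X)).re)

/-- The block bound for `m × m` matrices, `m ≤ q l`. -/
def T2_embed : Prop :=
  ∀ (A : Type u) [CStarAlgebra A] [PartialOrder A] [StarOrderedRing A]
    (H : Type v) [NormedAddCommGroup H] [InnerProductSpace ℂ H] [CompleteSpace H]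
    (w : A →ₗ[ℂ] (H →L[ℂ] H)) (τ : A →ₗ[ℂ] ℂ), IsHom w → IsTracialState τ → HasDixmier τ →
    ∀ c : ℝ, 0 ≤ c → c ≤ 11 / 10 → (∀ b, ‖w b‖ ≤ c * ‖b‖) →
    ∀ (m l q : ℕ), 0 < l → 0 < q → m ≤ q * l → ∀ γ : ℝ, 0 ≤ γ →
      (∀ Y : CStarMatrix (Fin l) (Fin l) A, ‖amp w (Fin l) Y‖ ≤ γ * ‖Y‖) →
      ∀ (X : CStarMatrix (Fin m) (Fin m) A) (ξ : HH (Fin m) H),
        ‖amp w (Fin m) X ξ‖ ^ 2 ≤ 27 * γ ^ 2 * ‖ξ‖ ^ 2 *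
          (‖X‖ ^ 2 + 1 / (l : ℝ) * (tr τ (Fin m) (star X * X)).re)

/-- The deterministic inequality for one unitary and a homomorphism. -/
def T2_det : Prop :=
  ∀ (B : Type u) [CStarAlgebra B] [PartialOrder B] [StarOrderedRing B]
    (K : Type v) [NormedAddCommGroup K] [InnerProductSpace ℂ K] [CompleteSpace K]
    (w : B →ₗ[ℂ] (K →L[ℂ] K)), IsHom w →
    ∀ (t : B →ₗ[ℂ] ℂ), (∀ b, t (star b) = conj (t b)) → 0 ≤ (t 1).re →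
    ∀ (a b : ℝ), 0 ≤ a → 0 ≤ b →
    (∀ (X : B) (ξ : K), ‖w X ξ‖ ^ 2 ≤ ‖ξ‖ ^ 2 * (a * ‖X‖ ^ 2 + b * (t (star X * X)).re)) →
    ∀ U : B, U ∈ unitary B → ∀ θ : K, ∀ Q : ℕ, 0 < Q →
      Q * ∑ k ∈ range Q, ‖w (U ^ k) θ‖ ^ 2 ≤
      (4 * Q ^ 2 * a + b * (2 * Q * (t 1).re + 4 * Q * ∑ k ∈ range (2 * Q), ‖t (U ^ (k + 1))‖)) *
        ((1 / (Q : ℝ)) * ∑ q ∈ range Q, ‖w (star U ^ (q + 1)) θ‖ ^ 2)

/-- Second moments of the polynomials `wv` when `V` has small defect entries. -/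
def T2_mom : Prop :=
  ∀ (ι : Type) [Fintype ι] [DecidableEq ι] (R : ℕ) [NeZero R]
    (H : Type v) [NormedAddCommGroup H] [InnerProductSpace ℂ H] [CompleteSpace H]
    (V : HH ι H →L[ℂ] HH ι H) (κ : ℝ), 0 ≤ κ →
    (∀ (i j : ι) (h : H), ‖(star V * V - 1) (inj j h) i‖ ≤ κ * ‖h‖) →
    ∀ Q : ℕ, κ * Q ^ 2 ≤ 1 / 4 → Q + 1 < R → ∀ (θ : HH ι H) (k : ℕ), k < Q →
      3 / 4 * ((Fintype.card (ι → ZMod R) : ℝ) * ‖θ‖ ^ 2) ≤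
        ∑ ω : ι → ZMod R, ‖wv cproj V.toLinearMap θ ω k‖ ^ 2 ∧
      ∑ ω : ι → ZMod R, ‖wv cproj V.toLinearMap θ ω k‖ ^ 2 ≤
        4 / 3 * ((Fintype.card (ι → ZMod R) : ℝ) * ‖θ‖ ^ 2)

/-- Averages along the orbits of the random unitary. -/
def T2_orbit : Prop :=
  ∀ (A : Type u) [CStarAlgebra A] [PartialOrder A] [StarOrderedRing A]
    (H : Type v) [NormedAddCommGroup H] [InnerProductSpace ℂ H] [CompleteSpace H]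
    (w : A →ₗ[ℂ] (H →L[ℂ] H)), IsHom w → ∀ (ι : Type) [Fintype ι] [DecidableEq ι]
    (x : CStarMatrix ι ι A), x ∈ unitary (CStarMatrix ι ι A) → ∀ κ : ℝ, 0 ≤ κ →
    (∀ (i j : ι) (h : H), ‖(star (amp w ι x) * amp w ι x - 1) (inj j h) i‖ ≤ κ * ‖h‖ ∧
      ‖(star (amp w ι (star x)) * amp w ι (star x) - 1) (inj j h) i‖ ≤ κ * ‖h‖) →
    ∀ (R : ℕ) [NeZero R] (Q : ℕ), 0 < Q → κ * Q ^ 2 ≤ 1 / 4 → Q + 1 < R → ∀ ζ : HH ι H,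
      (∀ k, k < Q → 3 / 4 * ((Fintype.card (ι → ZMod R) : ℝ) * ‖amp w ι x ζ‖ ^ 2) ≤
        ∑ ω : ι → ZMod R, ‖amp w ι ((x * ph A ω) ^ k) (amp w ι x ζ)‖ ^ 2) ∧
      (∀ q, q < Q → ∑ ω : ι → ZMod R,
        ‖amp w ι (star (x * ph A ω) ^ (q + 1)) (amp w ι x ζ)‖ ^ 2 ≤
          4 / 3 * ((Fintype.card (ι → ZMod R) : ℝ) * ‖ζ‖ ^ 2))

/-- The recursion for homomorphisms. -/
def T2_rec : Prop :=
  ∀ (A : Type u) [CStarAlgebra A] [PartialOrder A] [StarOrderedRing A]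
    (H : Type v) [NormedAddCommGroup H] [InnerProductSpace ℂ H] [CompleteSpace H]
    (w : A →ₗ[ℂ] (H →L[ℂ] H)) (τ : A →ₗ[ℂ] ℂ), IsHom w → IsTracialState τ → HasDixmier τ →
    ∀ δ : ℝ, 0 ≤ δ → δ ≤ 1 / 10 → (∀ b, ‖w b‖ ≤ (1 + δ) * ‖b‖) →
    ∀ Q m l : ℕ, 0 < Q → 432 * δ * Q ^ 2 ≤ 1 → 32768 * Q ^ 3 ≤ m → m ≤ Q * l →
    ∀ γ : ℝ, 0 ≤ γ → (∀ Y : CStarMatrix (Fin l) (Fin l) A, ‖amp w (Fin l) Y‖ ≤ γ * ‖Y‖) →
      ∀ X : CStarMatrix (Fin m) (Fin m) A, ‖amp w (Fin m) X‖ ≤ 50 * γ * ‖X‖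

/-- Solution of the recursion. -/
def T2_growth : Prop :=
  ∀ (δ : ℝ) (g : ℕ → ℝ), 0 < δ → δ ≤ 1 / 10 → (∀ n, 0 ≤ g n) → (∀ n, g n ≤ 2 * n) →
    (∀ Q m l : ℕ, 0 < Q → 432 * δ * Q ^ 2 ≤ 1 → 32768 * Q ^ 3 ≤ m → m ≤ Q * l →
      g m ≤ 50 * g l) →
    ∀ n : ℕ, 1 ≤ n → g n ≤ 400 * δ ^ (-(3 / 2) : ℝ) * (n : ℝ) ^ (16 / Real.log (1 / δ))

/-- Main theorem for homomorphisms. -/
def T2_main : Prop :=
  ∀ (A : Type u) [CStarAlgebra A] [PartialOrder A] [StarOrderedRing A] (τ : A →ₗ[ℂ] ℂ),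
    IsTracialState τ → HasDixmier τ →
    ∀ (H : Type v) [NormedAddCommGroup H] [InnerProductSpace ℂ H] [CompleteSpace H]
    (w : A →ₗ[ℂ] (H →L[ℂ] H)), IsHom w → ∀ δ : ℝ, 0 < δ → δ ≤ 1 / 10 →
    (∀ b, ‖w b‖ ≤ (1 + δ) * ‖b‖) →
    ∀ n : ℕ, 1 ≤ n → ∀ X : CStarMatrix (Fin n) (Fin n) A,
      ‖amp w (Fin n) X‖ ≤ 400 * δ ^ (-(3 / 2) : ℝ) * (n : ℝ) ^ (16 / Real.log (1 / δ)) * ‖X‖

end H759R2.Kad
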