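import Mathlib
import Pool.Agent.H75.L8.H759R2.Kad.Defs

/-!
Definitions used in the final statements.
-/

noncomputable section

namespace H759R2.Kad

universe u v

section

/-- The bounded operators on `H`. -/
abbrev Op (H : Type v) [NormedAddCommGroup H] [InnerProductSpace ℂ H] : Type v := H →L[ℂ] H

/-- The value `T x` of the operator `T` at the vector `x`. -/
def ev {H : Type v} [NormedAddCommGroup H] [InnerProductSpace ℂ H] (T : Op H) (x : H) : H := T x

variable {A : Type u} [CStarAlgebra A] {H : Type v} [NormedAddCommGroup H]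
  [InnerProductSpace ℂ H]

/-- `T : A → B(H)` is linear. -/
def IsLin (T : A → Op H) : Prop :=
  ∀ (c : ℂ) (a b : A) (x : H), ev (T (c • a + b)) x = c • ev (T a) x + ev (T b) x

/-- `π : A → B(H)` is a unital *-homomorphism: linear, multiplicative, unital and compatible with
adjoints, the last one being stated with the inner product of `H`. -/
structure IsStarHom (π : A → Op H) : Prop where
  lin : IsLin π
  mul : ∀ a b x, ev (π (a * b)) x = ev (π a) (ev (π b) x)
  one : ∀ x, ev (π 1) x = x
  adj : ∀ a x y, inner ℂ (ev (π (star a)) x) y = inner ℂ x (ev (π a) y)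

/-- `D : A → B(H)` is a derivation relative to `π` with norm at most `M`: it is linear,
`D (a b) = π a D b + D a π b`, and `‖D a‖ ≤ M ‖a‖`. -/
structure IsBddDerivation (π D : A → Op H) (M : ℝ) : Prop where
  lin : IsLin D
  leibniz : ∀ a b x, ev (D (a * b)) x = ev (π a) (ev (D b) x) + ev (D a) (ev (π b) x)
  bound : ∀ a x, ‖ev (D a) x‖ ≤ M * ‖a‖ * ‖x‖

variable [PartialOrder A] [StarOrderedRing A]

/-- The `n`-th entrywise amplification of `T : A → B(H)` has norm at most `C`: for every `n × n`
matrix `X` over `A` the operator matrix `(T (X i j))` on the Hilbert sum `H ⊕ ... ⊕ H` has norm at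
most `C ‖X‖`, where `‖X‖` is the C*-norm of `M_n(A)`. -/
def AmpNormLe (T : A → Op H) (n : ℕ) (C : ℝ) : Prop :=
  ∀ (X : CStarMatrix (Fin n) (Fin n) A) (x : Fin n → H),
    ∑ i, ‖∑ j, ev (T (X i j)) (x j)‖ ^ 2 ≤ (C * ‖X‖) ^ 2 * ∑ j, ‖x j‖ ^ 2

end

end H759R2.Kad
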