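import Mathlib
import Pool.Agent.H75.L8.H759R2.Kad.Defs
import Pool.Agent.H75.L8.H759R2.Kad.Stmt
import Pool.Agent.H75.L8.H759R2.Kad.Bridge
import Pool.Agent.H75.L8.H759R2.Kad.Props3
import Pool.Agent.H75.L8.H759R2.Kad.Stmt2

/-!
The class of algebras in the final statement.
-/

noncomputable section

namespace H759R2.Kad

universe u v

/-- `A` is isomorphic, as a C*-algebra, to the matrix algebra `M_L(N)` over some unital C*-algebra
`N` that has a tracial state `τ` with the Dixmier property and arbitrarily large finite sets of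
unitaries that are orthogonal for `τ`. -/
def IsMatDixmier (A : Type u) [CStarAlgebra A] (L : ℕ) : Prop :=
  ∃ (N : Type u) (_ : CStarAlgebra N) (_ : PartialOrder N) (_ : StarOrderedRing N)
    (τ : N →ₗ[ℂ] ℂ), IsTracialState τ ∧ HasDixmier τ ∧ HasOrth τ ∧
      Nonempty (A ≃⋆ₐ[ℂ] CStarMatrix (Fin L) (Fin L) N)

/-- A level bound in plain terms. -/
theorem lvl_of_class (hfin : K_final.{u, v}) (hiso : K_iso.{u, v})
    (A : Type u) [CStarAlgebra A] [PartialOrder A] [StarOrderedRing A]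
    (hA : ∀ L₀ : ℕ, ∃ L, L₀ ≤ L ∧ IsMatDixmier A L)
    (H : Type v) [NormedAddCommGroup H] [InnerProductSpace ℂ H] [CompleteSpace H]
    (u : A →ₗ[ℂ] (H →L[ℂ] H)) (hu : IsHom u) (c : ℝ) (hc : 1 ≤ c)
    (hb : ∀ a, ‖u a‖ ≤ c * ‖a‖) (m : ℕ) : LvlBd u m (216 * c ^ 23) := by
  rcases Nat.eq_zero_or_pos m with hm | hm
  · subst hm
    intro Y
    have h0 : amp u (Fin 0) Y = 0 := by
      ext ξ i
      exact i.elim0
    rw [h0, norm_zero]
    positivity
  obtain ⟨L, hL, N, _, _, _, τ, h1, h2, h3, ⟨φ⟩⟩ := hA (25920 * m ^ 11)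
  have hmap : ∀ X : CStarMatrix (Fin L) (Fin L) N, ‖(φ.symm X : A)‖ ≤ ‖X‖ := fun X =>
    (NonUnitalStarAlgHom.norm_apply_le φ.symm X)
  let w : CStarMatrix (Fin L) (Fin L) N →ₗ[ℂ] (H →L[ℂ] H) :=
    { toFun := fun X => u (φ.symm X)
      map_add' := fun X Y => by rw [map_add, map_add]
      map_smul' := fun r X => by rw [map_smul, map_smul, RingHom.id_apply] }
  have hw : IsHom w := ⟨fun X Y => by
    change u (φ.symm (X * Y)) = u (φ.symm X) * u (φ.symm Y)
    rw [map_mul, hu.mul], by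
    change u (φ.symm 1) = 1
    rw [map_one, hu.one]⟩
  have hwb : ∀ X, ‖w X‖ ≤ c * ‖X‖ := fun X =>
    (hb _).trans (mul_le_mul_of_nonneg_left (hmap X) (by linarith))
  have hl := hfin N τ h1 h2 h3 H L m hm hL w hw c hc hwb
  exact hiso A (CStarMatrix (Fin L) (Fin L) N) φ H u w _ (by positivity)
    (fun a => by change u (φ.symm (φ a)) = u a; rw [StarAlgEquiv.symm_apply_apply]) m hl

end H759R2.Kad
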